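import Mathlib

set_option autoImplicit false

/-!
# Countable weak pi-bases of the unit ball of a space with a 1-unconditional basis
-/

open Set Filter Topology

namespace Pool.Agent.T9h71.PB

variable {X : Type} [NormedAddCommGroup X] [NormedSpace ℝ X]

/-- the vector with the finitely supported coefficients `v` -/
noncomputable def E (e : ℕ → X) (v : ℕ →₀ ℝ) : X := Finsupp.linearCombination ℝ e v

section norm

variable {e : ℕ → X}
variable (hu : ∀ (s : Finset ℕ) (a ε : ℕ → ℝ), (∀ n, ε n = 1 ∨ ε n = -1) →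
  ‖∑ n ∈ s, (ε n * a n) • e n‖ ≤ ‖∑ n ∈ s, a n • e n‖)

include hu

/-- multiply the coordinates in `t` by numbers in `[-1,1]` -/
lemma lattice_aux (s : Finset ℕ) (a θ : ℕ → ℝ) (hθ : ∀ n, |θ n| ≤ 1) (t : Finset ℕ) :
    ‖∑ n ∈ s, ((if n ∈ t then θ n else 1) * a n) • e n‖ ≤ ‖∑ n ∈ s, a n • e n‖ := by
  classical
  induction t using Finset.induction_on with
  | empty => simp
  | insert k t hk ih =>
    -- the vector is a convex combination of two sign changes of the vector of `t`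
    set b : ℕ → ℝ := fun n => (if n ∈ t then θ n else 1) * a n with hb
    have h1 := hu s b (fun n => if n = k then -1 else 1) (by
      intro n; by_cases h : n = k <;> simp [h])
    have hdec : (∑ n ∈ s, ((if n ∈ insert k t then θ n else 1) * a n) • e n) =
        ((1 + θ k) / 2) • (∑ n ∈ s, b n • e n) +
        ((1 - θ k) / 2) • (∑ n ∈ s, ((fun n => if n = k then (-1:ℝ) else 1) n * b n) • e n) := by
      rw [Finset.smul_sum, Finset.smul_sum, ← Finset.sum_add_distrib]
      refine Finset.sum_congr rfl fun n _ => ?_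
      rw [smul_smul, smul_smul, ← add_smul]
      congr 1
      by_cases hn : n = k
      · subst hn
        simp [hb, hk]
        ring
      · have : (n ∈ insert k t) ↔ n ∈ t := by simp [hn]
        simp only [this, hb, hn, if_false]
        ring
    have hk1 := abs_le.1 (hθ k)
    calc ‖∑ n ∈ s, ((if n ∈ insert k t then θ n else 1) * a n) • e n‖
        ≤ ((1 + θ k) / 2) * ‖∑ n ∈ s, b n • e n‖ + ((1 - θ k) / 2) *
          ‖∑ n ∈ s, ((fun n => if n = k then (-1:ℝ) else 1) n * b n) • e n‖ := by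
          rw [hdec]
          refine (norm_add_le _ _).trans ?_
          rw [norm_smul, norm_smul, Real.norm_eq_abs, Real.norm_eq_abs,
            abs_of_nonneg (by linarith), abs_of_nonneg (by linarith)]
      _ ≤ ((1 + θ k) / 2) * ‖∑ n ∈ s, b n • e n‖ + ((1 - θ k) / 2) *
          ‖∑ n ∈ s, b n • e n‖ := by
          have : 0 ≤ (1 - θ k) / 2 := by linarith
          gcongr
      _ = ‖∑ n ∈ s, b n • e n‖ := by ring
      _ ≤ _ := ih

/-- the lattice property for finite sums -/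
lemma lattice_sum (s : Finset ℕ) (a b : ℕ → ℝ) (hab : ∀ n ∈ s, |a n| ≤ |b n|) :
    ‖∑ n ∈ s, a n • e n‖ ≤ ‖∑ n ∈ s, b n • e n‖ := by
  classical
  set θ : ℕ → ℝ := fun n => if n ∈ s then a n / b n else 1 with hθ
  have h1 : ∀ n, |θ n| ≤ 1 := by
    intro n
    by_cases hn : n ∈ s
    · simp only [hθ, hn, if_true, abs_div]
      exact div_le_one_of_le₀ (hab n hn) (abs_nonneg _)
    · simp [hθ, hn]
  have h2 := lattice_aux hu s b θ h1 s
  refine le_trans (le_of_eq ?_) h2
  congr 1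
  refine Finset.sum_congr rfl fun n hn => ?_
  congr 1
  simp only [hn, if_true, hθ]
  by_cases hb : b n = 0
  · have := hab n hn
    rw [hb, abs_zero] at this
    have h0 : a n = 0 := abs_eq_zero.1 (le_antisymm this (abs_nonneg _))
    simp [h0, hb]
  · field_simp

lemma lattice_subset {s t : Finset ℕ} (hst : s ⊆ t) (a : ℕ → ℝ) :
    ‖∑ n ∈ s, a n • e n‖ ≤ ‖∑ n ∈ t, a n • e n‖ := by
  classical
  have h := lattice_sum hu t (fun n => if n ∈ s then a n else 0) a (by
    intro n _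
    by_cases h : n ∈ s <;> simp [h])
  refine le_trans (le_of_eq ?_) h
  congr 1
  rw [← Finset.sum_filter_add_sum_filter_not t (· ∈ s)]
  have h1 : ∑ x ∈ t with ¬ x ∈ s, (if x ∈ s then a x else 0) • e x = 0 := by
    refine Finset.sum_eq_zero fun x hx => ?_
    simp only [Finset.mem_filter] at hx
    simp [hx.2]
  rw [h1, add_zero]
  have h2 : (t.filter (· ∈ s)) = s := by
    ext x; simp only [Finset.mem_filter]
    exact ⟨fun h => h.2, fun h => ⟨hst h, h⟩⟩
  rw [h2]
  exact Finset.sum_congr rfl fun x hx => by simp [hx]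

omit hu in
lemma E_eq_sum (v : ℕ →₀ ℝ) (s : Finset ℕ) (hs : v.support ⊆ s) :
    E e v = ∑ n ∈ s, v n • e n := by
  unfold E
  rw [Finsupp.linearCombination_apply, Finsupp.sum_of_support_subset _ hs _ (by simp)]

lemma norm_E_le (v : ℕ →₀ ℝ) (s : Finset ℕ) (b : ℕ → ℝ) (hs : v.support ⊆ s)
    (h : ∀ n ∈ s, |v n| ≤ |b n|) : ‖E e v‖ ≤ ‖∑ n ∈ s, b n • e n‖ := by
  rw [E_eq_sum v s hs]
  exact lattice_sum hu s _ _ h

lemma norm_E_mono (v w : ℕ →₀ ℝ) (h : ∀ n, |v n| ≤ |w n|) : ‖E e v‖ ≤ ‖E e w‖ := by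
  classical
  rw [E_eq_sum v (v.support ∪ w.support) Finset.subset_union_left,
    E_eq_sum w (v.support ∪ w.support) Finset.subset_union_right]
  exact lattice_sum hu _ _ _ fun n _ => h n

end norm

section core

variable {e : ℕ → X}

/-- nonnegative coefficient sequences supported in `[n, N)` -/
structure Blk (n N : ℕ) (y : ℕ → ℝ) : Prop where
  nonneg : ∀ i, 0 ≤ y i
  low : ∀ i < n, y i = 0
  high : ∀ i, N ≤ i → y i = 0

/-- values of the weight on tails which can be added to `a` -/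
def AA (e : ℕ → X) (φ a : ℕ → ℝ) (n0 n : ℕ) : Set ℝ :=
  {r | ∃ (N : ℕ) (y : ℕ → ℝ), n0 ≤ N ∧ Blk n N y ∧
    ‖∑ i ∈ Finset.range N, (a i + y i) • e i‖ ≤ 1 ∧ r = ∑ i ∈ Finset.range N, φ i * y i}

lemma core (hu : ∀ (s : Finset ℕ) (a ε : ℕ → ℝ), (∀ n, ε n = 1 ∨ ε n = -1) →
    ‖∑ n ∈ s, (ε n * a n) • e n‖ ≤ ‖∑ n ∈ s, a n • e n‖)
    (φ : ℕ → ℝ) (C : ℝ)
    (hC : ∀ (N : ℕ) (y : ℕ → ℝ), (∀ i, 0 ≤ y i) →
      ∑ i ∈ Finset.range N, φ i * y i ≤ C * ‖∑ i ∈ Finset.range N, y i • e i‖)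
    (hC0 : 0 ≤ C)
    (a : ℕ → ℝ) (ha : ∀ i, 0 ≤ a i) (n0 : ℕ) (ha0 : ∀ i, n0 ≤ i → a i = 0)
    (c1 : ℝ) (hc1 : 1 < c1) (hac : ‖∑ i ∈ Finset.range n0, (c1 * a i) • e i‖ ≤ 1)
    (ε : ℝ) (hε : 0 < ε) :
    ∃ (η : ℝ) (n : ℕ) (s : ℝ), 0 < η ∧ η < 1 ∧ n0 ≤ n ∧ 0 ≤ s ∧ s ≤ C ∧ η * C ≤ ε ∧
      (∀ (N : ℕ) (Y : ℕ → ℝ), n0 ≤ N → (∀ i, 0 ≤ Y i) → (∀ i < n, Y i = 0) →
        ‖∑ i ∈ Finset.range N, ((1 - η) * a i + Y i) • e i‖ ≤ 1 →
        ∑ i ∈ Finset.range N, φ i * Y i ≤ s + 2 * ε) ∧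
      (∀ k : ℕ, ∃ (N : ℕ) (y : ℕ → ℝ), n0 ≤ N ∧ Blk k N y ∧
        ‖∑ i ∈ Finset.range N, (a i + y i) • e i‖ ≤ 1 ∧
        s - ε ≤ ∑ i ∈ Finset.range N, φ i * y i) := by
  classical
  -- the base point has norm at most one
  have hrange : ∀ (N : ℕ), n0 ≤ N → ∀ c : ℝ,
      ∑ i ∈ Finset.range N, (c * a i) • e i = ∑ i ∈ Finset.range n0, (c * a i) • e i := by
    intro N hN c
    symm
    refine Finset.sum_subset (Finset.range_subset_range.2 hN) fun i _ hi => ?_
    rw [ha0 i (by simpa using hi)]; simp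
  have ha1 : ‖∑ i ∈ Finset.range n0, (1 * a i) • e i‖ ≤ 1 := by
    refine le_trans (lattice_sum hu _ _ _ fun i _ => ?_) hac
    rw [abs_of_nonneg (by simpa using ha i), abs_of_nonneg (by nlinarith [ha i])]
    nlinarith [ha i]
  have hmem0 : ∀ n, (0 : ℝ) ∈ AA e φ a n0 n := by
    intro n
    refine ⟨n0, fun _ => 0, le_rfl, ⟨fun _ => le_rfl, fun _ _ => rfl, fun _ _ => rfl⟩, ?_, by simp⟩
    simpa using ha1
  have hbound : ∀ (N : ℕ) (y : ℕ → ℝ), (∀ i, 0 ≤ y i) →
      ‖∑ i ∈ Finset.range N, (a i + y i) • e i‖ ≤ 1 → ∑ i ∈ Finset.range N, φ i * y i ≤ C := by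
    intro N y hy h
    refine (hC N y hy).trans ?_
    have h1 : ‖∑ i ∈ Finset.range N, y i • e i‖ ≤ 1 := by
      refine le_trans (lattice_sum hu _ _ _ fun i _ => ?_) h
      rw [abs_of_nonneg (hy i), abs_of_nonneg (add_nonneg (ha i) (hy i))]
      linarith [ha i]
    nlinarith
  have hbdd : ∀ n, BddAbove (AA e φ a n0 n) := by
    intro n
    refine ⟨C, ?_⟩
    rintro r ⟨N, y, -, hy, h, rfl⟩
    exact hbound N y hy.nonneg h
  set S : ℕ → ℝ := fun n => sSup (AA e φ a n0 n) with hS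
  have hS0 : ∀ n, 0 ≤ S n := fun n => le_csSup (hbdd n) (hmem0 n)
  have hSC : ∀ n, S n ≤ C := by
    intro n
    refine csSup_le ⟨0, hmem0 n⟩ ?_
    rintro r ⟨N, y, -, hy, h, rfl⟩
    exact hbound N y hy.nonneg h
  have hbelow : BddBelow (range S) := ⟨0, by rintro _ ⟨n, rfl⟩; exact hS0 n⟩
  set s : ℝ := ⨅ n, S n with hs
  have hsS : ∀ n, s ≤ S n := fun n => ciInf_le hbelow n
  have hs0 : 0 ≤ s := le_ciInf hS0
  have hsC : s ≤ C := (hsS 0).trans (hSC 0)
  obtain ⟨n', hn'⟩ := exists_lt_of_ciInf_lt (show (⨅ n, S n) < s + ε by rw [← hs]; linarith)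
  set n := max n' n0 with hn
  have hSn : S n ≤ s + ε := by
    refine le_trans ?_ hn'.le
    refine csSup_le_csSup (hbdd n') ⟨0, hmem0 n⟩ ?_
    rintro r ⟨N, y, h1, hy, h, rfl⟩
    exact ⟨N, y, h1, ⟨hy.nonneg, fun i hi => hy.low i (lt_of_lt_of_le hi (le_max_left _ _)),
      hy.high⟩, h, rfl⟩
  -- choice of `η`
  obtain ⟨η, hη0, hη1, hηC, hηc⟩ : ∃ η : ℝ, 0 < η ∧ η < 1 ∧ η * C ≤ ε ∧
      (s + ε) * (1 + η / (c1 - 1)) ≤ s + 2 * ε := by
    have hc : 0 < c1 - 1 := by linarith
    refine ⟨min (1 / 2) (min (ε / (C + 1)) (ε * (c1 - 1) / (s + ε + 1))), ?_, ?_, ?_, ?_⟩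
    · positivity
    · exact lt_of_le_of_lt (min_le_left _ _) (by norm_num)
    · have : min (1 / 2) (min (ε / (C + 1)) (ε * (c1 - 1) / (s + ε + 1))) ≤ ε / (C + 1) :=
        (min_le_right _ _).trans (min_le_left _ _)
      calc _ ≤ ε / (C + 1) * C := by gcongr
        _ ≤ ε / (C + 1) * (C + 1) := by
          have : 0 ≤ ε / (C + 1) := by positivity
          nlinarith
        _ = ε := by field_simp
    · have h1 : min (1 / 2) (min (ε / (C + 1)) (ε * (c1 - 1) / (s + ε + 1))) ≤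
          ε * (c1 - 1) / (s + ε + 1) := (min_le_right _ _).trans (min_le_right _ _)
      have h2 : min (1 / 2) (min (ε / (C + 1)) (ε * (c1 - 1) / (s + ε + 1))) / (c1 - 1) ≤
          ε / (s + ε + 1) := by
        rw [div_le_iff₀ hc]
        refine h1.trans (le_of_eq ?_)
        ring
      have h3 : (s + ε) * (ε / (s + ε + 1)) ≤ ε := by
        rw [mul_div_assoc', div_le_iff₀ (by linarith)]
        nlinarith
      nlinarith
  refine ⟨η, n, s, hη0, hη1, le_max_right _ _, hs0, hsC, hηC, ?_, ?_⟩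
  · intro N Y hN hY hYn hnorm
    have hc : 0 < c1 - 1 := by linarith
    set lam : ℝ := (c1 - 1) / (c1 - 1 + η) with hlam
    have hlam0 : 0 < lam := by positivity
    have hlam1 : lam ≤ 1 := by
      rw [hlam, div_le_one (by linarith)]; linarith
    have hlameq : lam * (1 - η) + (1 - lam) * c1 = 1 := by
      rw [hlam]; field_simp; ring
    -- the truncated block
    set y : ℕ → ℝ := fun i => if i < N then lam * Y i else 0 with hy
    have hyb : Blk n N y := by
      refine ⟨fun i => ?_, fun i hi => ?_, fun i hi => ?_⟩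
      · simp only [hy]; split_ifs
        · exact mul_nonneg hlam0.le (hY i)
        · exact le_rfl
      · simp only [hy, hYn i hi]; simp
      · simp only [hy]; rw [if_neg (by omega)]
    have hmem : ∑ i ∈ Finset.range N, φ i * y i ∈ AA e φ a n0 n := by
      refine ⟨N, y, hN, hyb, ?_, rfl⟩
      have hdec : ∑ i ∈ Finset.range N, (a i + y i) • e i =
          lam • (∑ i ∈ Finset.range N, ((1 - η) * a i + Y i) • e i) +
          (1 - lam) • (∑ i ∈ Finset.range N, (c1 * a i) • e i) := by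
        rw [Finset.smul_sum, Finset.smul_sum, ← Finset.sum_add_distrib]
        refine Finset.sum_congr rfl fun i hi => ?_
        rw [smul_smul, smul_smul, ← add_smul]
        congr 1
        simp only [hy, Finset.mem_range.1 hi, if_true]
        linear_combination (-(a i)) * hlameq
      rw [hdec]
      refine (norm_add_le _ _).trans ?_
      rw [norm_smul, norm_smul, Real.norm_eq_abs, Real.norm_eq_abs, abs_of_nonneg hlam0.le,
        abs_of_nonneg (by linarith : 0 ≤ 1 - lam), hrange N hN c1]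
      nlinarith [norm_nonneg (∑ i ∈ Finset.range n0, (c1 * a i) • e i)]
    have h1 : ∑ i ∈ Finset.range N, φ i * y i ≤ s + ε := (le_csSup (hbdd n) hmem).trans hSn
    have h2 : ∑ i ∈ Finset.range N, φ i * y i = lam * ∑ i ∈ Finset.range N, φ i * Y i := by
      rw [Finset.mul_sum]
      refine Finset.sum_congr rfl fun i hi => ?_
      simp only [hy, Finset.mem_range.1 hi, if_true]; ring
    rw [h2] at h1
    have h3 : ∑ i ∈ Finset.range N, φ i * Y i = (lam * ∑ i ∈ Finset.range N, φ i * Y i) *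
        (1 + η / (c1 - 1)) := by
      rw [hlam]; field_simp
    rw [h3]
    refine le_trans ?_ hηc
    have : 0 ≤ 1 + η / (c1 - 1) := by positivity
    gcongr
  · intro k
    obtain ⟨r, ⟨N, y, hN, hy, hnorm, rfl⟩, hr⟩ :=
      exists_lt_of_lt_csSup ⟨0, hmem0 k⟩ (show s - ε < sSup (AA e φ a n0 k) by
        have := hsS k
        simp only [hS] at this
        linarith)
    exact ⟨N, y, hN, hy, hnorm, hr.le⟩

end core

section coords

variable {e : ℕ → X}

/-- the coordinates of `x` -/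
noncomputable def co (hx : ∀ x : X, ∃! a : ℕ → ℝ, HasSum (fun n => a n • e n) x) (x : X) :
    ℕ → ℝ := (hx x).choose

variable (hx : ∀ x : X, ∃! a : ℕ → ℝ, HasSum (fun n => a n • e n) x)

lemma co_spec (x : X) : HasSum (fun n => co hx x n • e n) x := (hx x).choose_spec.1

lemma co_unique {x : X} {a : ℕ → ℝ} (h : HasSum (fun n => a n • e n) x) : co hx x = a :=
  ((hx x).choose_spec.2 a h).symm

lemma co_add (x y : X) : co hx (x + y) = fun n => co hx x n + co hx y n := by
  apply co_unique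
  have := (co_spec hx x).add (co_spec hx y)
  simpa only [add_smul] using this

lemma co_smul (c : ℝ) (x : X) : co hx (c • x) = fun n => c * co hx x n := by
  apply co_unique
  have := (co_spec hx x).const_smul c
  simpa only [smul_smul] using this

lemma co_finsum (N : ℕ) (b : ℕ → ℝ) : co hx (∑ i ∈ Finset.range N, b i • e i) =
    fun i => if i < N then b i else 0 := by
  apply co_unique
  have h : HasSum (fun n => (if n < N then b n else 0) • e n)
      (∑ i ∈ Finset.range N, (if i < N then b i else 0) • e i) := by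
    apply hasSum_sum_of_ne_finset_zero
    intro n hn
    rw [if_neg (by simpa using hn), zero_smul]
  have h2 : ∑ i ∈ Finset.range N, (if i < N then b i else 0) • e i =
      ∑ i ∈ Finset.range N, b i • e i := by
    refine Finset.sum_congr rfl fun i hi => ?_
    rw [if_pos (Finset.mem_range.1 hi)]
  rwa [h2] at h

include hx in
lemma e_ne (n : ℕ) : e n ≠ 0 := by
  intro h
  have h1 := co_finsum hx (n + 1) (fun i => if i = n then 1 else 0)
  have h2 := co_finsum hx (n + 1) (fun _ => 0)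
  have h3 : ∑ i ∈ Finset.range (n + 1), ((fun i => if i = n then (1:ℝ) else 0) i) • e i =
      ∑ i ∈ Finset.range (n + 1), ((fun _ => (0:ℝ)) i) • e i := by
    refine Finset.sum_congr rfl fun i _ => ?_
    by_cases hi : i = n
    · subst hi; simp [h]
    · simp [hi]
  rw [h3, h2] at h1
  have := congrFun h1 n
  simp at this

variable (hu : ∀ (s : Finset ℕ) (a ε : ℕ → ℝ), (∀ n, ε n = 1 ∨ ε n = -1) →
  ‖∑ n ∈ s, (ε n * a n) • e n‖ ≤ ‖∑ n ∈ s, a n • e n‖)

include hu in
lemma sum_co_le (s : Finset ℕ) (x : X) : ‖∑ i ∈ s, co hx x i • e i‖ ≤ ‖x‖ := by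
  have h1 : Tendsto (fun t : Finset ℕ => ‖∑ i ∈ t, co hx x i • e i‖) atTop (𝓝 ‖x‖) :=
    (co_spec hx x).norm
  refine ge_of_tendsto h1 ?_
  filter_upwards [eventually_ge_atTop s] with t ht
  exact lattice_subset hu ht _

include hu in
lemma co_le (x : X) (n : ℕ) : |co hx x n| * ‖e n‖ ≤ ‖x‖ := by
  have := sum_co_le hx hu {n} x
  simpa [norm_smul] using this

/-- the coordinate functionals -/
noncomputable def coL (hu : ∀ (s : Finset ℕ) (a ε : ℕ → ℝ), (∀ n, ε n = 1 ∨ ε n = -1) →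
    ‖∑ n ∈ s, (ε n * a n) • e n‖ ≤ ‖∑ n ∈ s, a n • e n‖) (n : ℕ) : X →L[ℝ] ℝ :=
  LinearMap.mkContinuous
    { toFun := fun x => co hx x n
      map_add' := fun x y => by rw [co_add]
      map_smul' := fun c x => by rw [co_smul]; rfl } (‖e n‖⁻¹) (by
    intro x
    have h := co_le hx hu x n
    have h0 : 0 < ‖e n‖ := norm_pos_iff.2 (e_ne hx n)
    show |co hx x n| ≤ ‖e n‖⁻¹ * ‖x‖
    rw [inv_mul_eq_div, le_div_iff₀ h0]
    exact h)

lemma coL_apply (n : ℕ) (x : X) : coL hx hu n x = co hx x n := rfl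

end coords

section main

variable {e : ℕ → X}

lemma exists_small (N : ℕ) (g : ℕ → ℝ) (hg : ∀ i < N, 0 < g i) :
    ∃ ρ : ℝ, 0 < ρ ∧ ∀ i < N, ρ ≤ g i := by
  induction N with
  | zero => exact ⟨1, one_pos, by simp⟩
  | succ N ih =>
    obtain ⟨ρ, h1, h2⟩ := ih fun i hi => hg i (by omega)
    refine ⟨min ρ (g N), lt_min h1 (hg N (by omega)), fun i hi => ?_⟩
    rcases Nat.lt_succ_iff_lt_or_eq.1 hi with h | h
    · exact (min_le_left _ _).trans (h2 i h)
    · subst h; exact min_le_right _ _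

/-- the weight of a finite set of functionals -/
noncomputable def wt (e : ℕ → X) (I : Finset (StrongDual ℝ X)) (i : ℕ) : ℝ := ∑ f ∈ I, |f (e i)|

lemma le_wt {I : Finset (StrongDual ℝ X)} {f : StrongDual ℝ X} (hf : f ∈ I) (i : ℕ) :
    |f (e i)| ≤ wt e I i :=
  Finset.single_le_sum (f := fun f : StrongDual ℝ X => |f (e i)|) (fun _ _ => abs_nonneg _) hf

lemma wt_nonneg (I : Finset (StrongDual ℝ X)) (i : ℕ) : 0 ≤ wt e I i :=
  Finset.sum_nonneg fun _ _ => abs_nonneg _

lemma wt_bound (hu : ∀ (s : Finset ℕ) (a ε : ℕ → ℝ), (∀ n, ε n = 1 ∨ ε n = -1) →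
    ‖∑ n ∈ s, (ε n * a n) • e n‖ ≤ ‖∑ n ∈ s, a n • e n‖) (I : Finset (StrongDual ℝ X))
    (N : ℕ) (y : ℕ → ℝ) (_hy : ∀ i, 0 ≤ y i) :
    ∑ i ∈ Finset.range N, wt e I i * y i ≤ (∑ f ∈ I, ‖f‖) *
      ‖∑ i ∈ Finset.range N, y i • e i‖ := by
  unfold wt
  simp_rw [Finset.sum_mul]
  rw [Finset.sum_comm]
  refine Finset.sum_le_sum fun f _ => ?_
  set ε : ℕ → ℝ := fun i => if 0 ≤ f (e i) then 1 else -1 with hε
  have h1 : ∑ i ∈ Finset.range N, |f (e i)| * y i =
      f (∑ i ∈ Finset.range N, (ε i * y i) • e i) := by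
    rw [map_sum]
    refine Finset.sum_congr rfl fun i _ => ?_
    rw [map_smul, smul_eq_mul]
    simp only [hε]
    split_ifs with h
    · rw [abs_of_nonneg h]; ring
    · rw [abs_of_neg (not_le.1 h)]; ring
  rw [h1]
  refine (le_abs_self _).trans ((f.le_opNorm _).trans ?_)
  gcongr
  refine hu _ _ _ fun i => ?_
  simp only [hε]
  split_ifs
  · exact Or.inl rfl
  · exact Or.inr rfl

lemma key (hx : ∀ x : X, ∃! a : ℕ → ℝ, HasSum (fun n => a n • e n) x)
    (hu : ∀ (s : Finset ℕ) (a ε : ℕ → ℝ), (∀ n, ε n = 1 ∨ ε n = -1) →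
      ‖∑ n ∈ s, (ε n * a n) • e n‖ ≤ ‖∑ n ∈ s, a n • e n‖)
    (I : Finset (StrongDual ℝ X)) (x : X) (hx1 : ‖x‖ ≤ 1) (δ : ℝ) (hδ : 0 < δ) :
    ∃ (M : ℕ) (b : ℕ → ℝ) (ρ : ℝ), 0 < ρ ∧ (∃ p : X, ‖p‖ ≤ 1 ∧ ∀ i < M, co hx p i = b i) ∧
      ∀ z : X, ‖z‖ ≤ 1 → (∀ i < M, |co hx z i - b i| < ρ) → ∀ f ∈ I, |f z - f x| < δ := by
  classical
  set K : ℝ := ∑ f ∈ I, ‖f‖ with hK
  have hK0 : 0 ≤ K := Finset.sum_nonneg fun _ _ => norm_nonneg _
  have hfK : ∀ f ∈ I, ‖f‖ ≤ K := fun f hf =>
    Finset.single_le_sum (f := fun f : StrongDual ℝ X => ‖f‖) (fun _ _ => norm_nonneg _) hf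
  set τ : ℝ := min (1 / 2) (δ / (16 * (K + 1))) with hτ
  have hτ0 : 0 < τ := by rw [hτ]; positivity
  have hτ1 : τ ≤ 1 / 2 := min_le_left _ _
  have hτ2 : K * τ ≤ δ / 16 := by
    have : τ ≤ δ / (16 * (K + 1)) := min_le_right _ _
    calc K * τ ≤ (K + 1) * (δ / (16 * (K + 1))) := by gcongr; linarith
      _ = δ / 16 := by field_simp
  -- finite approximation
  have htend : Tendsto (fun n => ∑ i ∈ Finset.range n, co hx x i • e i) atTop (𝓝 x) :=
    (co_spec hx x).tendsto_sum_nat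
  obtain ⟨n0, hn0⟩ := (Metric.tendsto_atTop.1 htend τ hτ0)
  have hn0 := hn0 n0 le_rfl
  rw [dist_eq_norm] at hn0
  set x0 : ℕ → ℝ := fun i => if i < n0 then (1 - τ) * co hx x i else 0 with hx0
  set a : ℕ → ℝ := fun i => |x0 i| with ha
  have ha0 : ∀ i, n0 ≤ i → a i = 0 := by
    intro i hi; simp only [ha, hx0]; rw [if_neg (by omega)]; simp
  set c1 : ℝ := 1 / (1 - τ) with hc1
  have hτp : 0 < 1 - τ := by linarith
  have hc1' : 1 < c1 := by rw [hc1, lt_div_iff₀ hτp]; linarith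
  have hac : ‖∑ i ∈ Finset.range n0, (c1 * a i) • e i‖ ≤ 1 := by
    refine le_trans ?_ ((sum_co_le hx hu (Finset.range n0) x).trans hx1)
    refine lattice_sum hu _ _ _ fun i hi => ?_
    rw [Finset.mem_range] at hi
    simp only [ha, hx0, if_pos hi, abs_mul, abs_abs, hc1, abs_div, abs_one]
    rw [abs_of_pos hτp]
    apply le_of_eq
    field_simp
  set ε : ℝ := δ / 16 with hε
  have hε0 : 0 < ε := by rw [hε]; positivity
  obtain ⟨η, n, s, hη0, hη1, hn, hs0, hsK, hηK, H1, H2⟩ := core hu (wt e I) K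
    (wt_bound hu I) hK0 a (fun i => abs_nonneg _) n0 ha0 c1 hc1' hac ε hε0
  -- a sequence of blocks
  choose Nk y hNk hblk hnorm hval using fun k : ℕ => H2 (max k n)
  set g : ℕ → (I → ℝ) := fun k f => (f : StrongDual ℝ X) (∑ i ∈ Finset.range (Nk k), y k i • e i)
    with hg
  have hyn : ∀ k, ‖∑ i ∈ Finset.range (Nk k), y k i • e i‖ ≤ 1 := by
    intro k
    refine le_trans (lattice_sum hu _ _ _ fun i _ => ?_) (hnorm k)
    rw [abs_of_nonneg ((hblk k).nonneg i), abs_of_nonneg (add_nonneg (abs_nonneg _)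
      ((hblk k).nonneg i))]
    have : 0 ≤ a i := abs_nonneg _
    linarith
  have hgb : ∀ k, g k ∈ Metric.closedBall (0 : I → ℝ) K := by
    intro k
    rw [mem_closedBall_zero_iff, pi_norm_le_iff_of_nonneg hK0]
    intro f
    refine ((f : StrongDual ℝ X).le_opNorm _).trans ?_
    calc _ ≤ K * 1 := mul_le_mul (hfK f.1 f.2) (hyn k) (norm_nonneg _) hK0
      _ = K := mul_one _
  obtain ⟨L, -, ψ, hψ, hlim⟩ := tendsto_subseq_of_bounded Metric.isBounded_closedBall hgb
  obtain ⟨r0, hr0⟩ := Metric.tendsto_atTop.1 hlim (ε / 2) (by positivity)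
  set k1 := ψ r0 with hk1
  set k2 := ψ (max r0 (Nk k1)) with hk2
  have hk2N : Nk k1 ≤ k2 := (le_max_right _ _).trans (hψ.id_le _)
  have hclose : ∀ f ∈ I, |f (∑ i ∈ Finset.range (Nk k1), y k1 i • e i) -
      f (∑ i ∈ Finset.range (Nk k2), y k2 i • e i)| ≤ ε := by
    intro f hf
    have h1 := hr0 r0 le_rfl
    have h2 := hr0 (max r0 (Nk k1)) (le_max_left _ _)
    have h3 : dist (g k1) (g k2) ≤ ε := by
      calc dist (g k1) (g k2) ≤ dist (g k1) L + dist (g k2) L := dist_triangle_right _ _ _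
        _ ≤ ε / 2 + ε / 2 := add_le_add h1.le h2.le
        _ = ε := by ring
    have h4 := (dist_le_pi_dist (g k1) (g k2) ⟨f, hf⟩).trans h3
    rwa [Real.dist_eq] at h4
  set y1 := y k1 with hy1
  set y2 := y k2 with hy2
  have hb1 : Blk (max k1 n) (Nk k1) y1 := hblk k1
  have hb2 : Blk (max k2 n) (Nk k2) y2 := hblk k2
  have y1n : ∀ i < n, y1 i = 0 := fun i hi => hb1.low i (lt_of_lt_of_le hi (le_max_right _ _))
  have y2n : ∀ i < n, y2 i = 0 := fun i hi => hb2.low i (lt_of_lt_of_le hi (le_max_right _ _))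
  have y2N : ∀ i < Nk k1, y2 i = 0 := fun i hi =>
    hb2.low i (lt_of_lt_of_le hi (hk2N.trans (le_max_left _ _)))
  set M := max (max (Nk k1) (Nk k2)) n with hM
  have hM1 : Nk k1 ≤ M := (le_max_left _ _).trans (le_max_left _ _)
  have hM2 : Nk k2 ≤ M := (le_max_right _ _).trans (le_max_left _ _)
  have hMn : n ≤ M := le_max_right _ _
  set b : ℕ → ℝ := fun i => x0 i + (y1 i - y2 i) / 2 with hb
  have hext : ∀ (N : ℕ) (c : ℕ → ℝ), N ≤ M → (∀ i, N ≤ i → c i = 0) →
      ∑ i ∈ Finset.range M, c i • e i = ∑ i ∈ Finset.range N, c i • e i := by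
    intro N c hN hc
    symm
    refine Finset.sum_subset (Finset.range_subset_range.2 hN) fun i _ hi => ?_
    rw [hc i (by simpa using hi), zero_smul]
  -- the absolute value of `b`
  have habs : ∀ i, |b i| = a i + (y1 i + y2 i) / 2 := by
    intro i
    have p1 := hb1.nonneg i
    have p2 := hb2.nonneg i
    by_cases hi : i < n
    · simp only [hb, ha, y1n i hi, y2n i hi]; simp
    · have hi0 : a i = 0 := ha0 i (by omega)
      have hx00 : x0 i = 0 := abs_eq_zero.1 hi0
      by_cases hi2 : i < Nk k1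
      · rw [y2N i hi2]
        simp only [hb, hx00, y2N i hi2, hi0, zero_add, sub_zero, add_zero]
        rw [abs_of_nonneg (by positivity)]
      · simp only [hb, hx00, hb1.high i (by omega), hi0, zero_add, zero_sub]
        rw [abs_of_nonpos (by linarith)]
        ring
  have hMn0 : n0 ≤ M := (hNk k1).trans hM1
  have hbnorm : ‖∑ i ∈ Finset.range M, b i • e i‖ ≤ 1 := by
    have h1 : ‖∑ i ∈ Finset.range M, (a i + y1 i) • e i‖ ≤ 1 := by
      rw [hext (Nk k1) (fun i => a i + y1 i) hM1 (fun i hi => by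
        rw [ha0 i ((hNk k1).trans hi), hb1.high i hi, add_zero])]
      exact hnorm k1
    have h2 : ‖∑ i ∈ Finset.range M, (a i + y2 i) • e i‖ ≤ 1 := by
      rw [hext (Nk k2) (fun i => a i + y2 i) hM2 (fun i hi => by
        rw [ha0 i ((hNk k2).trans hi), hb2.high i hi, add_zero])]
      exact hnorm k2
    have h3 : ‖∑ i ∈ Finset.range M, b i • e i‖ ≤
        ‖∑ i ∈ Finset.range M, (a i + (y1 i + y2 i) / 2) • e i‖ := by
      refine lattice_sum hu _ _ _ fun i _ => ?_
      rw [habs i]; exact le_abs_self _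
    have h4 : ∑ i ∈ Finset.range M, (a i + (y1 i + y2 i) / 2) • e i =
        (1 / 2 : ℝ) • (∑ i ∈ Finset.range M, (a i + y1 i) • e i) +
        (1 / 2 : ℝ) • (∑ i ∈ Finset.range M, (a i + y2 i) • e i) := by
      rw [Finset.smul_sum, Finset.smul_sum, ← Finset.sum_add_distrib]
      refine Finset.sum_congr rfl fun i _ => ?_
      rw [smul_smul, smul_smul, ← add_smul]
      congr 1; ring
    rw [h4] at h3
    refine h3.trans ((norm_add_le _ _).trans ?_)
    rw [norm_smul, norm_smul, Real.norm_eq_abs, abs_of_pos (by norm_num : (0:ℝ) < 1 / 2)]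
    linarith
  -- the size of the neighbourhood
  obtain ⟨ρ1, hρ1, hρ1'⟩ := exists_small M (fun i => if b i = 0 then 1 else η * |b i|) (by
    intro i _
    show 0 < if b i = 0 then (1:ℝ) else η * |b i|
    split_ifs with h
    · exact one_pos
    · exact mul_pos hη0 (abs_pos.2 h))
  set Φ : ℝ := ∑ i ∈ Finset.range M, wt e I i with hΦ
  have hΦ0 : 0 ≤ Φ := Finset.sum_nonneg fun i _ => wt_nonneg I i
  set ρ : ℝ := min ρ1 (ε / (Φ + 1)) with hρ
  have hρ0 : 0 < ρ := by rw [hρ]; positivity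
  have hρΦ : ρ * Φ ≤ ε := by
    have : ρ ≤ ε / (Φ + 1) := min_le_right _ _
    calc ρ * Φ ≤ (ε / (Φ + 1)) * (Φ + 1) := by
          have h1 : 0 ≤ ε / (Φ + 1) := by positivity
          nlinarith
      _ = ε := by field_simp
  refine ⟨M, b, ρ, hρ0, ⟨∑ i ∈ Finset.range M, b i • e i, hbnorm, ?_⟩, ?_⟩
  · intro i hi
    rw [co_finsum]
    exact if_pos hi
  intro z hz hzb f hf
  -- tails of `z`
  have hcoz : ∀ i < M, (1 - η) * |b i| ≤ |co hx z i| := by
    intro i hi
    by_cases h0 : b i = 0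
    · rw [h0]; simp
    · have h1 := hρ1' i hi
      rw [if_neg h0] at h1
      have h2 := hzb i hi
      have h3 : ρ ≤ η * |b i| := (min_le_left _ _).trans h1
      have h4 : |b i| - |co hx z i| ≤ |co hx z i - b i| := by
        rw [abs_sub_comm]; exact abs_sub_abs_le_abs_sub _ _
      nlinarith
  have hwsum : ∀ N, M ≤ N → ∀ (N' : ℕ) (c : ℕ → ℝ), N' ≤ M → (∀ i, N' ≤ i → c i = 0) →
      ∑ i ∈ Finset.range N, wt e I i * c i = ∑ i ∈ Finset.range N', wt e I i * c i := by
    intro N hN N' c hN' hc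
    symm
    refine Finset.sum_subset (Finset.range_subset_range.2 (hN'.trans hN)) fun i _ hi => ?_
    rw [hc i (by simpa using hi), mul_zero]
  have htail : ∀ N, M ≤ N → ∑ i ∈ Finset.range N,
      wt e I i * (if i < M then 0 else |co hx z i|) ≤ 4 * ε := by
    intro N hN
    set zz : ℕ → ℝ := fun i => if i < M then 0 else |co hx z i| with hzz
    have hzz0 : ∀ i, 0 ≤ zz i := by
      intro i; simp only [hzz]; split_ifs
      · exact le_rfl
      · exact abs_nonneg _
    have h1 := H1 N (fun i => (1 - η) * ((y1 i + y2 i) / 2) + zz i) (hMn0.trans hN)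
      (fun i => by
        have p1 := hb1.nonneg i
        have p2 := hb2.nonneg i
        have p3 : 0 ≤ 1 - η := by linarith
        have p4 := hzz0 i
        positivity)
      (fun i hi => by
        simp only [y1n i hi, y2n i hi, hzz, if_pos (lt_of_lt_of_le hi hMn)]; simp)
      (by
        refine le_trans ?_ ((sum_co_le hx hu (Finset.range N) z).trans hz)
        refine lattice_sum hu _ _ _ fun i _ => ?_
        have p3 : 0 ≤ 1 - η := by linarith
        by_cases hi : i < M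
        · have h2 := hcoz i hi
          simp only [hzz, if_pos hi]
          rw [habs i] at h2
          have p1 := hb1.nonneg i
          have p2 := hb2.nonneg i
          have p5 : 0 ≤ a i := abs_nonneg _
          rw [abs_of_nonneg (by positivity)]
          linarith
        · simp only [hzz, if_neg hi, ha0 i (by omega), hb1.high i (by omega),
            hb2.high i (by omega)]
          simp)
    have h2 : ∑ i ∈ Finset.range N, wt e I i * ((1 - η) * ((y1 i + y2 i) / 2) + zz i) =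
        (1 - η) / 2 * (∑ i ∈ Finset.range N, wt e I i * y1 i) +
        (1 - η) / 2 * (∑ i ∈ Finset.range N, wt e I i * y2 i) +
        ∑ i ∈ Finset.range N, wt e I i * zz i := by
      rw [Finset.mul_sum, Finset.mul_sum, ← Finset.sum_add_distrib, ← Finset.sum_add_distrib]
      refine Finset.sum_congr rfl fun i _ => ?_
      ring
    rw [h2, hwsum N hN (Nk k1) y1 hM1 hb1.high, hwsum N hN (Nk k2) y2 hM2 hb2.high] at h1
    have v1 : s - ε ≤ ∑ i ∈ Finset.range (Nk k1), wt e I i * y1 i := hval k1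
    have v2 : s - ε ≤ ∑ i ∈ Finset.range (Nk k2), wt e I i * y2 i := hval k2
    have p3 : 0 ≤ (1 - η) / 2 := by linarith
    have v3 := mul_le_mul_of_nonneg_left v1 p3
    have v4 := mul_le_mul_of_nonneg_left v2 p3
    have v5 : η * s ≤ ε := (mul_le_mul_of_nonneg_left hsK hη0.le).trans hηK
    have v6 : 0 ≤ η * ε := by positivity
    linarith
  -- the part of `z` after `M`
  have hpart1 : |f z - f (∑ i ∈ Finset.range M, co hx z i • e i)| ≤ 4 * ε := by
    have hlimz : Tendsto (fun N => |f (∑ i ∈ Finset.range N, co hx z i • e i) -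
        f (∑ i ∈ Finset.range M, co hx z i • e i)|) atTop
        (𝓝 |f z - f (∑ i ∈ Finset.range M, co hx z i • e i)|) := by
      have h1 : Tendsto (fun n => ∑ i ∈ Finset.range n, co hx z i • e i) atTop (𝓝 z) :=
        (co_spec hx z).tendsto_sum_nat
      exact (((f.continuous.tendsto z).comp h1).sub_const _).abs
    refine le_of_tendsto hlimz ?_
    filter_upwards [eventually_ge_atTop M] with N hN
    refine le_trans ?_ (htail N hN)
    rw [map_sum, map_sum]
    have h1 : ∑ i ∈ Finset.range N, f (co hx z i • e i) -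
        ∑ i ∈ Finset.range M, f (co hx z i • e i) =
        ∑ i ∈ Finset.range N, (if i < M then 0 else f (co hx z i • e i)) := by
      have h2 : ∑ i ∈ Finset.range M, f (co hx z i • e i) =
          ∑ i ∈ Finset.range N, (if i < M then f (co hx z i • e i) else 0) := by
        have h3 : ∑ i ∈ Finset.range M, f (co hx z i • e i) =
            ∑ i ∈ Finset.range M, (if i < M then f (co hx z i • e i) else 0) :=
          Finset.sum_congr rfl fun i hi => by rw [if_pos (Finset.mem_range.1 hi)]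
        rw [h3]
        refine Finset.sum_subset (Finset.range_subset_range.2 hN) fun i _ hi => ?_
        rw [if_neg (by simpa using hi)]
      rw [h2, ← Finset.sum_sub_distrib]
      refine Finset.sum_congr rfl fun i _ => ?_
      split_ifs <;> ring
    rw [h1]
    refine (Finset.abs_sum_le_sum_abs _ _).trans (Finset.sum_le_sum fun i _ => ?_)
    split_ifs
    · simp
    · rw [map_smul, smul_eq_mul, abs_mul, mul_comm]
      exact mul_le_mul_of_nonneg_right (le_wt hf i) (abs_nonneg _)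
  have hpart2 : |f (∑ i ∈ Finset.range M, co hx z i • e i) -
      f (∑ i ∈ Finset.range M, b i • e i)| ≤ ε := by
    rw [map_sum, map_sum, ← Finset.sum_sub_distrib]
    refine (Finset.abs_sum_le_sum_abs _ _).trans (le_trans ?_ hρΦ)
    rw [hΦ, Finset.mul_sum]
    refine Finset.sum_le_sum fun i hi => ?_
    rw [map_smul, map_smul, smul_eq_mul, smul_eq_mul, ← sub_mul, abs_mul]
    exact mul_le_mul (hzb i (Finset.mem_range.1 hi)).le (le_wt hf i) (abs_nonneg _) hρ0.le
  have hpart3 : |f (∑ i ∈ Finset.range M, b i • e i) -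
      f (∑ i ∈ Finset.range n0, x0 i • e i)| ≤ ε := by
    have h1 : ∑ i ∈ Finset.range M, b i • e i = ∑ i ∈ Finset.range n0, x0 i • e i +
        (1 / 2 : ℝ) • (∑ i ∈ Finset.range (Nk k1), y1 i • e i -
          ∑ i ∈ Finset.range (Nk k2), y2 i • e i) := by
      rw [← hext (Nk k1) y1 hM1 hb1.high, ← hext (Nk k2) y2 hM2 hb2.high,
        ← hext n0 x0 hMn0 (fun i hi => abs_eq_zero.1 (ha0 i hi)), ← Finset.sum_sub_distrib,
        Finset.smul_sum, ← Finset.sum_add_distrib]
      refine Finset.sum_congr rfl fun i _ => ?_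
      rw [← sub_smul, smul_smul, ← add_smul]
      congr 1
      simp only [hb]; ring
    rw [h1, map_add, add_sub_cancel_left, map_smul, map_sub, smul_eq_mul, abs_mul,
      abs_of_pos (by norm_num : (0:ℝ) < 1 / 2)]
    have := hclose f hf
    linarith
  have hpart4 : |f (∑ i ∈ Finset.range n0, x0 i • e i) - f x| ≤ 2 * ε := by
    have h1 : ∑ i ∈ Finset.range n0, x0 i • e i =
        (1 - τ) • ∑ i ∈ Finset.range n0, co hx x i • e i := by
      rw [Finset.smul_sum]
      refine Finset.sum_congr rfl fun i hi => ?_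
      simp only [hx0, if_pos (Finset.mem_range.1 hi)]
      rw [smul_smul]
    rw [← map_sub, ← Real.norm_eq_abs]
    refine (f.le_opNorm _).trans ?_
    have h2 : ‖∑ i ∈ Finset.range n0, x0 i • e i - x‖ ≤ 2 * τ := by
      have h3 : ∑ i ∈ Finset.range n0, x0 i • e i - x =
          (∑ i ∈ Finset.range n0, co hx x i • e i - x) -
          τ • ∑ i ∈ Finset.range n0, co hx x i • e i := by
        rw [h1, sub_smul, one_smul]; abel
      rw [h3]
      refine (norm_sub_le _ _).trans ?_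
      rw [norm_smul, Real.norm_eq_abs, abs_of_pos hτ0]
      have h4 := (sum_co_le hx hu (Finset.range n0) x).trans hx1
      nlinarith
    calc ‖f‖ * ‖∑ i ∈ Finset.range n0, x0 i • e i - x‖ ≤ K * (2 * τ) :=
          mul_le_mul (hfK f hf) h2 (norm_nonneg _) hK0
      _ = 2 * (K * τ) := by ring
      _ ≤ 2 * ε := by linarith
  have htot : |f z - f x| ≤ 8 * ε := by
    have e1 : f z - f x = (f z - f (∑ i ∈ Finset.range M, co hx z i • e i)) +
        (f (∑ i ∈ Finset.range M, co hx z i • e i) - f (∑ i ∈ Finset.range M, b i • e i)) +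
        (f (∑ i ∈ Finset.range M, b i • e i) - f (∑ i ∈ Finset.range n0, x0 i • e i)) +
        (f (∑ i ∈ Finset.range n0, x0 i • e i) - f x) := by ring
    rw [e1]
    refine (abs_add_le _ _).trans ?_
    refine (add_le_add_left ((abs_add_le _ _).trans (add_le_add_left (abs_add_le _ _) _)) _).trans ?_
    linarith
  calc |f z - f x| ≤ 8 * ε := htot
    _ < δ := by rw [hε]; linarith

end main

end Pool.Agent.T9h71.PB
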